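import Mathlib
import Pool.Agent.P.MP_9682d1_al.C.Glue
import Pool.Agent.P.MP_9682d1_al.KB.L33
import Pool.Agent.P.MP_9682d1_al.KB.T73
import Pool.Agent.P.MP_9682d1_al.KB.K23
import Pool.Agent.P.MP_9682d1_al.KB.W33

set_option autoImplicit false

namespace Pool.Agent.P.MP_9682d1_al.B3

open Pool.Agent.P.MP_9682d1_al.C

universe u

variable {G : Type*} [Group G]

theorem re4 {a : G} (h : RE 4 a) (x : G) : cm (cm (cm (cm a x) x) x) x = 1 := h x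

theorem cj_pow (a g : G) (n : ℕ) : (g⁻¹ * a * g) ^ n = g⁻¹ * a ^ n * g := by
  have := conj_pow (i := n) (a := g⁻¹) (b := a)
  simpa using this

theorem cls_pow {a u : G} {n : ℕ} (h : a ^ n = 1) (hu : u ∈ cls a) : u ^ n = 1 := by
  obtain ⟨g, rfl⟩ := hu
  rw [cj_pow, h]; simp

theorem P2.cj_pow {u v : G} (h : P2 u v) (n : ℕ) : (v ^ n)⁻¹ * u * v ^ n = u * cm u v ^ n := by
  induction n with
  | zero => simp
  | succ n ih =>
    have e : (v ^ (n + 1))⁻¹ * u * v ^ (n + 1) = v⁻¹ * ((v ^ n)⁻¹ * u * v ^ n) * v := by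
      rw [pow_succ]; group
    have e2 : v⁻¹ * cm u v ^ n * v = cm u v ^ n := cj_of_comm (h.2.pow_left n)
    rw [e, ih]
    calc v⁻¹ * (u * cm u v ^ n) * v = (v⁻¹ * u * v) * (v⁻¹ * cm u v ^ n * v) := by group
      _ = u * cm u v ^ (n + 1) := by rw [e2, cj_eq, pow_succ', mul_assoc]

theorem P2.cm_pow {u v : G} (h : P2 u v) {n : ℕ} (hv : v ^ n = 1) : cm u v ^ n = 1 := by
  have := P2.cj_pow h n
  rw [hv] at this
  simpa using this.symm

theorem P2.conj {u v : G} (h : P2 u v) (g : G) : P2 (g⁻¹ * u * g) (g⁻¹ * v * g) := by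
  rw [P2, ← cj_cm]
  exact ⟨comm_conj h.1 g, comm_conj h.2 g⟩

/-- commutators of class 2 pairs -/
def cm2 (X : Set G) : Set G := {e | ∃ u ∈ X, ∃ v ∈ X, P2 u v ∧ e = cm u v}

theorem cm2_cj {X : Set G} (h : Cj X) : Cj (cm2 X) := by
  rintro _ ⟨u, hu, v, hv, p, rfl⟩ g
  exact ⟨_, h u hu g, _, h v hv g, P2.conj p g, cj_cm u v g⟩

/-- a triple condition from one family of commutators -/
theorem cl3_of_key {Y : Set G}
    (key : ∀ a ∈ Y, ∀ b ∈ Y, ∀ w ∈ Y, ∀ s ∈ ({a, b, w} : Set G), ∀ t ∈ ({a, b, w} : Set G),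
      cm (cm (cm b a) s) t = 1) :
    ∀ x ∈ Y, ∀ y ∈ Y, ∀ z ∈ Y, Cl3 ({x, y, z} : Set G) := by
  intro x hx y hy z hz a ha b hb c hc d hd
  have e : ∀ w ∈ Y, a ∈ Y → b ∈ Y → ({x, y, z} : Set G) ⊆ {b, a, w} →
      cm (cm (cm a b) c) d = 1 :=
    fun w hw h1 h2 hs => key b h2 a h1 w hw c (hs hc) d (hs hd)
  rcases ha with rfl | rfl | rfl <;> rcases hb with rfl | rfl | rfl
  · simp
  · exact e z hz hx hy (by intro t; simp; tauto)
  · exact e y hy hx hz (by intro t; simp; tauto)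
  · exact e z hz hy hx (by intro t; simp)
  · simp
  · exact e x hx hy hz (by intro t; simp; tauto)
  · exact e y hy hz hx (by intro t; simp; tauto)
  · exact e x hx hz hy (by intro t; simp; tauto)
  · simp

/-- a sandwich set of elements of order 3 is good -/
theorem good_of_three {Y : Set G} (h1 : Cj Y) (h2 : ∀ x ∈ Y, ∀ y ∈ Y, cm (cm x y) y = 1)
    (h3 : ∀ y ∈ Y, y ^ 3 = 1) : Good Y := by
  refine ⟨h1, h2, cl3_of_key fun a ha b hb w hw s hs t ht => ?_⟩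
  have k : ∀ p ∈ Y, ∀ q ∈ Y, ∀ x : G, cm (cm (x⁻¹ * p * x) q) q = 1 :=
    fun p hp q hq x => h2 _ (h1 p hp x) q hq
  obtain ⟨t1, t2, t3, t4, t5, t6, t7, t8, t9, -⟩ := KB.W33.main a b w (h3 a ha) (h3 b hb) (h3 w hw)
    (k a ha a ha) (k a ha b hb) (k a ha w hw) (k b hb a ha) (k b hb b hb) (k b hb w hw)
    (k w hw a ha) (k w hw b hb) (k w hw w hw)
  rcases hs with rfl | rfl | rfl <;> rcases ht with rfl | rfl | rfl <;> assumption

section three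

variable {a : G} (ha : RE 4 a) (h3 : a ^ 3 = 1)
include ha h3

theorem prod_cube {x y : G} (hx : x ∈ cls a) (hy : y ∈ cls a) (g : G) :
    (x * (g⁻¹ * y * g)) ^ 3 = 1 := by
  obtain ⟨k, hk⟩ := exists_cj_of_cls hx (cj_cls a y hy g)
  rw [hk]
  exact KB.L33.main x k (cls_pow h3 hx) (re4 (ha.cls hx))

theorem t73 {u v c : G} (hu : u ∈ cls a) (hv : v ∈ cls a) (hc : c ∈ cls a) (p : P2 u v) :
    cm (cm c (cm u v)) (cm u v) = 1 ∧ cm (cm (cm c (cm u v)) c) c = 1 :=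
  KB.T73.main u v c (cls_pow h3 hu) (cls_pow h3 hv) (cls_pow h3 hc) (cm_eq_one.mpr p.1)
    (cm_eq_one.mpr p.2) (prod_cube ha h3 hu hu) (prod_cube ha h3 hu hv) (prod_cube ha h3 hu hc)
    (prod_cube ha h3 hv hv) (prod_cube ha h3 hv hc) (prod_cube ha h3 hc hc)
    (re4 (ha.cls hu)) (re4 (ha.cls hv)) (re4 (ha.cls hc))

theorem cm2_pow : ∀ e ∈ cm2 (cls a), e ^ 3 = 1 := by
  rintro _ ⟨u, _, v, hv, p, rfl⟩
  exact P2.cm_pow p (cls_pow h3 hv)

theorem cm2_eng : ∀ f ∈ cm2 (cls a), ∀ e ∈ cm2 (cls a), cm (cm f e) e = 1 := by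
  rintro _ ⟨b, hb, w, _, q, rfl⟩ e he
  have he3 := cm2_pow ha h3 e he
  obtain ⟨u, hu, v, hv, p, rfl⟩ := he
  have hc : w⁻¹ * b * w ∈ cls a := cj_cls a b hb w
  have hd : b⁻¹ * (w⁻¹ * b * w) * (w⁻¹ * b * w) ∈ cls a := by
    have e1 := P2.cj_pow q 2
    have e2 : b⁻¹ * (w⁻¹ * b * w) * (w⁻¹ * b * w) = b * cm b w ^ 2 := by
      rw [cj_eq, inv_mul_cancel_left, ← mul_assoc, q.1.eq, pow_two, mul_assoc]
    rw [e2, ← e1]
    exact cj_cls a b hb _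
  have l1 : ∀ y ∈ cls a, ∀ x : G, cm (cm (x⁻¹ * y * x) (cm u v)) (cm u v) = 1 :=
    fun y hy x => (t73 ha h3 hu hv (cj_cls a y hy x) p).1
  have l2 : ∀ y ∈ cls a, ∀ x : G,
      cm (cm (cm (x⁻¹ * y * x) (cm u v)) (x⁻¹ * y * x)) (x⁻¹ * y * x) = 1 :=
    fun y hy x => (t73 ha h3 hu hv (cj_cls a y hy x) p).2
  exact KB.K23.main (cm u v) b (w⁻¹ * b * w) he3 (cls_pow h3 hb) (cls_pow h3 hc)
    (cm_eq_one.mpr q.cj) (prod_cube ha h3 hb hb) (prod_cube ha h3 hb hc) (prod_cube ha h3 hb hd)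
    (prod_cube ha h3 hc hc) (prod_cube ha h3 hc hd) (prod_cube ha h3 hd hd)
    (l1 b hb) (l1 _ hc) (l1 _ hd) (l2 b hb) (l2 _ hc) (l2 _ hd)
    (re4 (ha.cls hb)) (re4 (ha.cls hc)) (re4 (ha.cls hd))

theorem good_cm2 : Good (cm2 (cls a)) :=
  good_of_three (cm2_cj (cj_cls a)) (cm2_eng ha h3) (cm2_pow ha h3)

end three

/-- step B for elements of order 3 -/
theorem U3 (G : Type u) [Group G] (a : G) (ha : RE 4 a) (h3 : a ^ 3 = 1) :
    ∀ u ∈ cls a, ∀ v ∈ cls a, P2 u v → cm u v ∈ HP G :=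
  fun u hu v hv p => (good_cm2 ha h3).sub_HP ⟨u, hu, v, hv, p, rfl⟩

/-- a right 4-Engel element of order 3 lies in the Hirsch-Plotkin radical -/
theorem mem_HP_three
    (A0 : ∀ (G : Type u) [Group G] (a g : G), RE 4 a →
      Group.IsNilpotent (Subgroup.closure {a, g}))
    {G : Type u} [Group G] {a : G} (ha : RE 4 a) (h3 : a ^ 3 = 1) : a ∈ HP G :=
  descent (fun _ _ a => a ^ 3 = 1) (fun _ _ _ _ φ a _ h => by rw [← map_pow, h, map_one]) A0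
    (fun G _ a ha h => U3 G a ha h) ha h3

end Pool.Agent.P.MP_9682d1_al.B3
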